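import Pool.Agent.Helper6.BA.ResGlue
import Pool.Agent.Helper77.BA.Size
import Pool.Agent.Helper19.BA.NdUb
import Pool.Agent.Helper93.BA.NdMeet

/-!
# Project BA: reduction of small families of values to a node (BA-Q5)
-/

set_option autoImplicit false
set_option linter.unusedSectionVars false

namespace Pool.Agent.Helper94.BA

open Pool.Agent.Helper33.HM

section Red

variable {P₀ I : Type 1} [Preorder P₀] [LinearOrder I] {h : Ordinal.{0} → ℕ → ℕ → RO P₀}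

/-- `(σ, p)` decides `V`. -/
def h15Dec (V : RO (QQ I h)) (σ : Nd I h) (p : Cnd σ.F σ.len) : Prop :=
  (⟨σ, p⟩ : QQ I h) ∈ V ∨ (⟨σ, p⟩ : QQ I h) ∈ Vᶜ

theorem h15Dec_mono {V : RO (QQ I h)} {σ τ : Nd I h} (hστ : σ ≤ τ) {p : Cnd σ.F σ.len}
    {q : Cnd τ.F τ.len} (hpq : Raw.Le p.1 q.1) (hp : h15Dec V σ p) : h15Dec V τ q := by
  have hle : (⟨τ, q⟩ : QQ I h) ≤ ⟨σ, p⟩ := ⟨hστ, hpq⟩
  rcases hp with hp | hp
  · exact Or.inl (RO.mem_lower hle hp)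
  · exact Or.inr (RO.mem_lower hle hp)

/-- The values are dense. -/
theorem h15Dec_dense (V : RO (QQ I h)) (σ : Nd I h) (p : Cnd σ.F σ.len) :
    ∃ τ : Nd I h, σ ≤ τ ∧ ∃ q : Cnd τ.F τ.len, Raw.Le p.1 q.1 ∧ h15Dec V τ q := by
  by_cases hV : ∃ x : QQ I h, x ≤ ⟨σ, p⟩ ∧ x ∈ V
  · obtain ⟨x, hx, hxV⟩ := hV
    exact ⟨x.nd, hx.1, x.p, hx.2, Or.inl hxV⟩
  · refine ⟨σ, le_rfl, p, Raw.Le_refl _, Or.inr ?_⟩
    rw [RO.mem_compl]
    intro q hq hqV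
    exact hV ⟨q, hq, hqV⟩

/-- The requirement for `V` and `p`. -/
def h15D (V : RO (QQ I h)) (σ : Nd I h) (p : Cnd σ.F σ.len) (τ : Nd I h) : Prop :=
  (¬ ∃ ρ : Nd I h, σ ≤ ρ ∧ τ ≤ ρ) ∨
    (σ ≤ τ ∧ ∃ q : Cnd τ.F τ.len, Raw.Le p.1 q.1 ∧ h15Dec V τ q)

theorem h15D_up (V : RO (QQ I h)) (σ : Nd I h) (p : Cnd σ.F σ.len) {τ τ' : Nd I h}
    (hτ : τ ≤ τ') (hD : h15D V σ p τ) : h15D V σ p τ' := by
  rcases hD with hD | ⟨h1, q, hq, hqV⟩
  · exact Or.inl fun ⟨ρ, h1, h2⟩ => hD ⟨ρ, h1, hτ.trans h2⟩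
  · exact Or.inr ⟨h1.trans hτ, incTo hτ.2 hτ.1 q, hq, h15Dec_mono hτ (Raw.Le_refl _) hqV⟩

theorem h15D_dense (V : RO (QQ I h)) (σ : Nd I h) (p : Cnd σ.F σ.len) (τ : Nd I h) :
    ∃ τ', τ ≤ τ' ∧ h15D V σ p τ' := by
  by_cases hc : ∃ ρ : Nd I h, σ ≤ ρ ∧ τ ≤ ρ
  · obtain ⟨ρ, h1, h2⟩ := hc
    obtain ⟨τ', h3, q, hq, hqV⟩ := h15Dec_dense V ρ (incTo h1.2 h1.1 p)
    exact ⟨τ', h2.trans h3, Or.inr ⟨h1.trans h3, q, hq, hqV⟩⟩
  · exact ⟨τ, le_rfl, Or.inl hc⟩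

open Cardinal in
theorem h15_step (hI : KI I) (hP : #P₀ ≤ #Ordinal.{0}) (V : Ordinal.{0} → RO (QQ I h))
    (σ : Nd I h) : ∃ τ, σ ≤ τ ∧ ∀ β, ∀ p : Cnd σ.F σ.len, ∃ q : Cnd τ.F τ.len,
      Raw.Le p.1 q.1 ∧ h15Dec (V β) τ q := by
  by_cases hne : Nonempty (Cnd σ.F σ.len)
  · have hinf : ℵ₀ ≤ #Ordinal.{0} := by
      have : Infinite Ordinal.{0} := Infinite.of_injective (fun n : ℕ => (n : Ordinal.{0}))
        Nat.cast_injective
      exact Cardinal.aleph0_le_mk _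
    have hc : #(Ordinal.{0} × Cnd σ.F σ.len) ≤ #Ordinal.{0} := by
      rw [Cardinal.mk_prod, Cardinal.lift_id, Cardinal.lift_id]
      exact (Cardinal.mul_le_max_of_aleph0_le_left hinf).trans
        (max_le le_rfl (mk_cnd hI hP _ _))
    obtain ⟨g⟩ := Cardinal.le_def _ _ |>.1 hc
    have : Nonempty (Ordinal.{0} × Cnd σ.F σ.len) := ⟨(0, hne.some)⟩
    have hsurj := Function.invFun_surjective g.injective
    obtain ⟨τ, h1, h2⟩ := nd_meet hI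
      (fun ξ τ => h15D (V (Function.invFun g ξ).1) σ (Function.invFun g ξ).2 τ)
      (fun ξ τ τ' hτ hD => h15D_up _ _ _ hτ hD) (fun ξ τ => h15D_dense _ _ _ τ) σ
    refine ⟨τ, h1, fun β p => ?_⟩
    obtain ⟨ξ, hξ⟩ := hsurj (β, p)
    have h3 := h2 ξ
    simp only [hξ] at h3
    rcases h3 with h3 | h3
    · exact absurd ⟨τ, h1, le_rfl⟩ h3
    · exact h3.2
  · exact ⟨σ, le_rfl, fun β p => absurd ⟨p⟩ hne⟩

/-- Restriction of a good iteration. -/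
theorem h15_good {F : I → Set (Name P₀ I)} {ℓ : I} (hG : Good h F ℓ) {i : I} (hi : i ≤ ℓ) :
    Good h (restr F i) i := by
  intro j hj
  have hFj : restr F i j = F j := agr_restr F i j hj
  have hag : Agr (restr F i) F j := fun k hk => agr_restr F i k (hk.trans hj)
  obtain ⟨h1, h2⟩ := hG j (hj.trans_le hi)
  rw [hFj, restr_congr hag]
  exact ⟨fun Y hY n k => ⟨(h1 Y hY n k).1.congr (h1 Y hY n k).2
    fun k' hk' => (hag k' hk').symm.subset, (h1 Y hY n k).2⟩, h2⟩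

/-- The union of an increasing sequence of nodes. -/
theorem h15_lub (hI : KI I) (s : ℕ → Nd I h) (hs : Monotone s) :
    ∃ τ : Nd I h, (∀ n, s n ≤ τ) ∧ ∀ p : Cnd τ.F τ.len, ∃ n, ∃ q : Cnd (s n).F (s n).len,
      q.1 = p.1 := by
  have := hI.wf
  obtain ⟨τ', hτ'⟩ := nd_ub hI (Γ := ULift.{1} ℕ) (by
    have : Infinite Ordinal.{0} := Infinite.of_injective (fun n : ℕ => (n : Ordinal.{0}))
      Nat.cast_injective
    calc Cardinal.mk (ULift.{1} ℕ) = Cardinal.aleph0 := by simp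
      _ ≤ _ := Cardinal.aleph0_le_mk _) (fun n => s n.down)
    (fun a b => (le_total a.down b.down).imp (fun h => hs h) fun h => hs h)
  have hS : {i : I | ∀ n, (s n).len ≤ i}.Nonempty := ⟨τ'.len, fun n => (hτ' ⟨n⟩).1⟩
  set lam := WellFounded.min this.wf _ hS with hlam
  have hmem : ∀ n, (s n).len ≤ lam := WellFounded.min_mem this.wf _ hS
  have hmin : ∀ j, j < lam → ∃ n, j < (s n).len := by
    intro j hj
    by_contra hc
    push Not at hc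
    exact WellFounded.not_lt_min this.wf {i : I | ∀ n, (s n).len ≤ i} hc hj
  have hle : lam ≤ τ'.len := by
    by_contra hc
    exact WellFounded.not_lt_min this.wf {i : I | ∀ n, (s n).len ≤ i}
      (fun n => (hτ' ⟨n⟩).1) (not_le.1 hc)
  refine ⟨⟨restr τ'.F lam, lam, ?_, h15_good τ'.good hle⟩, ?_, ?_⟩
  · intro j hj
    rw [restr, if_neg (not_lt.2 hj)]
  · intro n
    refine ⟨hmem n, fun j hj => ?_⟩
    exact ((hτ' ⟨n⟩).2 j hj).trans (agr_restr τ'.F lam j (hj.trans_le (hmem n))).symm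
  · rintro ⟨p, hp1, hp2⟩
    have key : ∃ n, p.lt (s n).len := by
      cases p with
      | nil a => exact ⟨0, trivial⟩
      | cons p j t m f v => exact hmin j hp2
    obtain ⟨n, hn⟩ := key
    refine ⟨n, ⟨p, hp1.congr hn fun j hj => ?_, hn⟩, rfl⟩
    have h1 : (s n).F j = τ'.F j := (hτ' ⟨n⟩).2 j hj
    have h2 : restr τ'.F lam j = τ'.F j := agr_restr τ'.F lam j (hj.trans_le (hmem n))
    rw [h1]
    exact h2.subset

/-- If all conditions of the node can be extended inside the node to decide `V` then `V` is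
represented at the node. -/
theorem h15_at (V : RO (QQ I h)) (τ : Nd I h)
    (hd : ∀ p : Cnd τ.F τ.len, ∃ q : Cnd τ.F τ.len, q ≤ p ∧ h15Dec V τ q) :
    ∃ U : RO (Cnd τ.F τ.len), At τ V U := by
  refine ⟨RO.gen {q | (⟨τ, q⟩ : QQ I h) ∈ V}, ?_⟩
  have hlow : ∀ (q r : Cnd τ.F τ.len), r ≤ q → (⟨τ, q⟩ : QQ I h) ∈ V →
      (⟨τ, r⟩ : QQ I h) ∈ V := fun q r hr hq => RO.mem_lower (show (⟨τ, r⟩ : QQ I h) ≤ ⟨τ, q⟩ from
        ⟨le_rfl, hr⟩) hq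
  have hgen : ∀ p : Cnd τ.F τ.len, p ∈ RO.gen {q | (⟨τ, q⟩ : QQ I h) ∈ V} ↔
      ∀ q, q ≤ p → ∃ r, r ≤ q ∧ (⟨τ, r⟩ : QQ I h) ∈ V := by
    intro p
    rw [RO.mem_gen]
    constructor
    · intro hp q hq
      obtain ⟨r, hr, a, ha, hra⟩ := hp q hq
      exact ⟨r, hr, hlow a r hra ha⟩
    · intro hp q hq
      obtain ⟨r, hr, hrV⟩ := hp q hq
      exact ⟨r, hr, r, hrV, le_rfl⟩
  intro x hx
  rw [hgen]
  constructor
  · intro hxV q hq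
    obtain ⟨r, hr, hrV⟩ := hd q
    refine ⟨r, hr, ?_⟩
    rcases hrV with hrV | hrV
    · exact hrV
    · exfalso
      obtain ⟨g, hg, hgr⟩ := exists_glue hx.2 hx.1 x.p r (hr.trans hq)
      have h1 : (⟨x.nd, g⟩ : QQ I h) ∈ V := RO.mem_lower
        (show (⟨x.nd, g⟩ : QQ I h) ≤ x from ⟨le_rfl, hg⟩) hxV
      have h2 : (⟨x.nd, g⟩ : QQ I h) ≤ ⟨τ, r⟩ := by
        refine ⟨hx, ?_⟩
        have h3 := le_incTo_resTo hx.2 hx.1 g
        rw [hgr] at h3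
        exact h3
      exact RO.mem_compl.1 hrV _ h2 h1
  · intro hU
    refine RO.mem_reg fun y hy => ?_
    have hτy : τ ≤ y.nd := hx.trans hy.1
    have h1 : resTo hτy.2 y.p ≤ resTo hx.2 x.p := by
      have h2 : y.p ≤ incTo hy.1.2 hy.1.1 x.p := hy.2
      exact resTo_mono hτy.2 h2
    obtain ⟨r, hr, hrV⟩ := hU _ h1
    obtain ⟨g, hg, hgr⟩ := exists_glue hτy.2 hτy.1 y.p r hr
    refine ⟨⟨y.nd, g⟩, ⟨le_rfl, hg⟩, ?_⟩
    have h2 : (⟨y.nd, g⟩ : QQ I h) ≤ ⟨τ, r⟩ := by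
      refine ⟨hτy, ?_⟩
      have h3 := le_incTo_resTo hτy.2 hτy.1 g
      rw [hgr] at h3
      exact h3
    exact RO.mem_lower h2 hrV

open Cardinal in
theorem reduce (hI : KI I) (hP : #P₀ ≤ #Ordinal.{0}) (V : Ordinal.{0} → RO (QQ I h))
    (σ : Nd I h) : ∃ τ, σ ≤ τ ∧ ∀ β, ∃ U : RO (Cnd τ.F τ.len), At τ (V β) U := by
  choose st hst1 hst2 using h15_step hI hP V
  set s : ℕ → Nd I h := fun n => Nat.rec σ (fun _ ρ => st ρ) n with hs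
  have hsucc : ∀ n, s (n + 1) = st (s n) := fun n => rfl
  have hmono : Monotone s := monotone_nat_of_le_succ fun n => by
    rw [hsucc]; exact hst1 _
  obtain ⟨τ, h1, h2⟩ := h15_lub hI s hmono
  refine ⟨τ, h1 0, fun β => h15_at (V β) τ fun p => ?_⟩
  obtain ⟨n, p', hp'⟩ := h2 p
  obtain ⟨q, hq, hqV⟩ := hst2 (s n) β p'
  have hle : st (s n) ≤ τ := h1 (n + 1)
  refine ⟨incTo hle.2 hle.1 q, ?_, h15Dec_mono hle (Raw.Le_refl _) hqV⟩
  rw [Cnd.le_def, ← hp']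
  exact hq

end Red

end Pool.Agent.Helper94.BA
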